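import Pool.Agent.Helper69.RF.Bas

/-!
# Project RF (MP_e74dc5_nt), module ASC: `X_k ^ (2 ^ k)` and `2` are associated
-/

set_option autoImplicit false

open Polynomial Helper62.Weber

namespace Pool.Agent.Helper99.RF

open Pool.Agent.Helper69.RF

/-- mutual divisibility in the subring `S` -/
private def As (S : Subalgebra ℤ ℝ) (a b : ℝ) : Prop :=
  ∃ v w : ℝ, v ∈ S ∧ w ∈ S ∧ a = b * v ∧ b = a * w

private theorem As.pow {S : Subalgebra ℤ ℝ} {a b : ℝ} (h : As S a b) (n : ℕ) :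
    As S (a ^ n) (b ^ n) := by
  obtain ⟨v, w, hv, hw, h1, h2⟩ := h
  refine ⟨v ^ n, w ^ n, S.pow_mem hv n, S.pow_mem hw n, ?_, ?_⟩
  · rw [← mul_pow, ← h1]
  · rw [← mul_pow, ← h2]

private theorem As.trans {S : Subalgebra ℤ ℝ} {a b c : ℝ} (h : As S a b) (h' : As S b c) :
    As S a c := by
  obtain ⟨v, w, hv, hw, h1, h2⟩ := h
  obtain ⟨v', w', hv', hw', h1', h2'⟩ := h'
  refine ⟨v' * v, w * w', S.mul_mem hv' hv, S.mul_mem hw hw', ?_, ?_⟩
  · rw [← mul_assoc, ← h1', ← h1]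
  · rw [← mul_assoc, ← h2, ← h2']

private theorem As.mono {S T : Subalgebra ℤ ℝ} {a b : ℝ} (h : As S a b) (hST : S ≤ T) :
    As T a b := by
  obtain ⟨v, w, hv, hw, h1, h2⟩ := h
  exact ⟨v, w, hST hv, hST hw, h1, h2⟩

private theorem XR_sq (k : ℕ) : XR (k + 1) ^ 2 = 2 + XR k := by
  rw [← cR_one, ← cR_one, cR_sq]

private theorem memX (k : ℕ) : XR k ∈ Algebra.adjoin ℤ {XR k} :=
  Algebra.subset_adjoin (Set.mem_singleton _)

private theorem mem2 (S : Subalgebra ℤ ℝ) : (2 : ℝ) ∈ S := by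
  have := S.algebraMap_mem 2
  simpa using this

private theorem le_sq (k : ℕ) :
    Algebra.adjoin ℤ {XR k} ≤ Algebra.adjoin ℤ {XR (k + 1) ^ 2} := by
  refine Algebra.adjoin_le ?_
  rintro x rfl
  have h : XR k = XR (k + 1) ^ 2 - 2 := by rw [XR_sq]; ring
  rw [h]
  exact Subalgebra.sub_mem _ (Algebra.subset_adjoin (Set.mem_singleton _)) (mem2 _)

private theorem le_succ (k : ℕ) :
    Algebra.adjoin ℤ {XR k} ≤ Algebra.adjoin ℤ {XR (k + 1)} := by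
  refine (le_sq k).trans (Algebra.adjoin_le ?_)
  rintro x rfl
  exact Subalgebra.pow_mem _ (memX (k + 1)) 2

/-- `2 - X_k` divides `2` -/
private theorem div_minus (k : ℕ) : ∃ w ∈ Algebra.adjoin ℤ {XR k}, (2 : ℝ) = (2 - XR k) * w := by
  induction k with
  | zero =>
    refine ⟨1, Subalgebra.one_mem _, ?_⟩
    rw [XR_zero]
    ring
  | succ k ih =>
    obtain ⟨w, hw, h⟩ := ih
    refine ⟨(2 + XR (k + 1)) * w, Subalgebra.mul_mem _ (Subalgebra.add_mem _ (mem2 _) (memX _))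
      (le_succ k hw), ?_⟩
    have h1 := XR_sq k
    have h2 : (2 - XR k) = (2 - XR (k + 1)) * (2 + XR (k + 1)) := by linarith [h1]
    rw [h2] at h
    rw [← mul_assoc]
    exact h

/-- `2 + X_k` divides `2` -/
private theorem div_plus (k : ℕ) : ∃ w ∈ Algebra.adjoin ℤ {XR k}, (2 : ℝ) = (2 + XR k) * w := by
  cases k with
  | zero =>
    refine ⟨1, Subalgebra.one_mem _, ?_⟩
    rw [XR_zero]
    ring
  | succ k =>
    obtain ⟨w, hw, h⟩ := div_minus k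
    refine ⟨(2 - XR (k + 1)) * w, Subalgebra.mul_mem _ (Subalgebra.sub_mem _ (mem2 _) (memX _))
      (le_succ k hw), ?_⟩
    have h1 := XR_sq k
    have h2 : (2 - XR k) = (2 + XR (k + 1)) * (2 - XR (k + 1)) := by linarith [h1]
    rw [h2] at h
    rw [← mul_assoc]
    exact h

private theorem plus_assoc (k : ℕ)
    (h : As (Algebra.adjoin ℤ {XR (k + 1)}) (XR (k + 1) ^ 2 ^ (k + 1)) 2) :
    As (Algebra.adjoin ℤ {XR (k + 1)}) (2 + XR (k + 1)) (XR (k + 1)) := by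
  obtain ⟨v, w, hv, hw, h1, h2⟩ := h
  obtain ⟨w', hw', h3⟩ := div_plus (k + 1)
  obtain ⟨m, hm⟩ : ∃ m, 2 ^ (k + 1) = m + 1 := ⟨2 ^ (k + 1) - 1, by
    have : 1 ≤ 2 ^ (k + 1) := Nat.one_le_two_pow
    omega⟩
  have h4 : (2 : ℝ) = XR (k + 1) * (XR (k + 1) ^ m * w) := by
    rw [← mul_assoc, ← pow_succ', ← hm]
    exact h2
  refine ⟨1 + XR (k + 1) ^ m * w, 1 - w', ?_, ?_, ?_, ?_⟩
  · exact Subalgebra.add_mem _ (Subalgebra.one_mem _)
      (Subalgebra.mul_mem _ (Subalgebra.pow_mem _ (memX _) _) hw)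
  · exact Subalgebra.sub_mem _ (Subalgebra.one_mem _) hw'
  · rw [mul_add, mul_one, ← h4]
    ring
  · rw [mul_sub, mul_one, ← h3]
    ring

private theorem core (m : ℕ) : As (Algebra.adjoin ℤ {XR m}) ((2 + XR m) ^ 2 ^ m) 2 ∧
    As (Algebra.adjoin ℤ {XR (m + 1)}) (XR (m + 1) ^ 2 ^ (m + 1)) 2 := by
  have step : ∀ m : ℕ, As (Algebra.adjoin ℤ {XR m}) ((2 + XR m) ^ 2 ^ m) 2 →
      As (Algebra.adjoin ℤ {XR (m + 1)}) (XR (m + 1) ^ 2 ^ (m + 1)) 2 := by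
    intro m h
    have e : XR (m + 1) ^ 2 ^ (m + 1) = (2 + XR m) ^ 2 ^ m := by
      rw [← XR_sq, ← pow_mul]
      congr 1
      ring
    rw [e]
    exact h.mono (le_succ m)
  induction m with
  | zero =>
    have h0 : As (Algebra.adjoin ℤ {XR 0}) ((2 + XR 0) ^ 2 ^ 0) 2 := by
      refine ⟨1, 1, Subalgebra.one_mem _, Subalgebra.one_mem _, ?_, ?_⟩ <;>
      · rw [XR_zero]
        norm_num
    exact ⟨h0, step 0 h0⟩
  | succ m ih =>
    have h1 := ((plus_assoc m ih.2).pow (2 ^ (m + 1))).trans ih.2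
    exact ⟨h1, step (m + 1) h1⟩

theorem cASC : ASC := by
  intro k hk
  obtain ⟨m, rfl⟩ : ∃ m, k = m + 1 := ⟨k - 1, by omega⟩
  refine ⟨(core m).2, ?_⟩
  have h := (core m).1.mono (le_sq m)
  have e : m + 1 - 1 = m := by omega
  rw [e]
  have e2 : (2 + XR m) ^ 2 ^ m = (XR (m + 1) ^ 2) ^ 2 ^ m := by rw [XR_sq]
  rw [e2] at h
  exact h

end Pool.Agent.Helper99.RF
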